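import Mathlib

open Polynomial

namespace Pool.Agent.H42.Cusp

/-- The derivative of `F` at `p` in the direction `v`. -/
noncomputable def dird {E : Type} [AddCommGroup E] [Module ℂ E] (F : E → ℂ) (p v : E) : ℂ :=
  deriv (fun h : ℂ => F (p + h • v)) 0

/-- The common zeros of the functions of the list `L`. -/
def zeros {E : Type} (L : List (E → ℂ)) : Set E := {p | ∀ F ∈ L, F p = 0}

/-- The vectors at `p` on which all the differentials of the functions of the list vanish. -/
def tangents {E : Type} [AddCommGroup E] [Module ℂ E] (L : List (E → ℂ)) (p : E) : Set E :=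
  {v | ∀ F ∈ L, dird F p v = 0}

/-- At every common zero the tangent vectors form a line. -/
def TangentLines {E : Type} [AddCommGroup E] [Module ℂ E] (L : List (E → ℂ)) : Prop :=
  ∀ p ∈ zeros L, ∃ w : E, w ≠ 0 ∧ tangents L p = {v | ∃ c : ℂ, v = c • w}

/-- The common zeros at which the differentials of `u` and `v` vanish on all tangent vectors. -/
def critical {E : Type} [AddCommGroup E] [Module ℂ E] (L : List (E → ℂ)) (u v : E → ℂ) : Set E :=
  {p | p ∈ zeros L ∧ ∀ w ∈ tangents L p, dird u p w = 0 ∧ dird v p w = 0}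

/-- The equation of the curve `t ^ 2 = P(z)` in the plane. -/
noncomputable def hypEq (P : ℂ[X]) : List (ℂ × ℂ → ℂ) := [fun p => p.2 ^ 2 - P.eval p.1]

/-- The three equations of the curve `Y_k`, in the coordinates `(x, t, s)`: the `2 x 2` minors of
the matrix with rows `(s, t + 1/2, x ^ (k + 1))` and `(x, s, t - 1)`. -/
noncomputable def covEq (k : ℕ) : List (ℂ × ℂ × ℂ → ℂ) :=
  [fun p => p.2.2 ^ 2 - p.1 * (p.2.1 + 1 / 2),
   fun p => p.2.2 * (p.2.1 - 1) - p.1 ^ (k + 2),
   fun p => (p.2.1 + 1 / 2) * (p.2.1 - 1) - p.1 ^ (k + 1) * p.2.2]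

theorem ncard_zeros {Q : ℂ[X]} (h : Q.Separable) : {z : ℂ | Q.eval z = 0}.ncard = Q.natDegree := by
  classical
  have h0 : Q ≠ 0 := h.ne_zero
  have : {z : ℂ | Q.eval z = 0} = (Q.roots.toFinset : Set ℂ) := by
    ext z
    simp [h0, IsRoot.def]
  rw [this, Set.ncard_coe_finset, Multiset.toFinset_card_of_nodup (nodup_roots h),
    IsAlgClosed.card_roots_eq_natDegree]

theorem ncard_pow {n : ℕ} (hn : n ≠ 0) {a : ℂ} (ha : a ≠ 0) : {z : ℂ | z ^ n = a}.ncard = n := by
  have h1 : (X ^ n - C a : ℂ[X]).Separable := separable_X_pow_sub_C a (by exact_mod_cast hn) ha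
  have h2 := ncard_zeros h1
  rw [natDegree_X_pow_sub_C] at h2
  have h3 : {z : ℂ | z ^ n = a} = {z : ℂ | eval z (X ^ n - C a) = 0} := by
    ext z
    simp [sub_eq_zero]
  rw [h3, h2]

/-! ### the curve `t ^ 2 = P(z)` -/

theorem dird_hyp (P : ℂ[X]) (p v : ℂ × ℂ) :
    dird (fun p : ℂ × ℂ => p.2 ^ 2 - P.eval p.1) p v
      = 2 * p.2 * v.2 - P.derivative.eval p.1 * v.1 := by
  unfold dird
  have h1 : HasDerivAt (fun h : ℂ => (p + h • v).2) v.2 0 := by
    have : HasDerivAt (fun h : ℂ => p.2 + h * v.2) (1 * v.2) 0 :=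
      ((hasDerivAt_id (0 : ℂ)).mul_const v.2).const_add p.2
    simpa using this
  have h2 : HasDerivAt (fun h : ℂ => (p + h • v).1) v.1 0 := by
    have : HasDerivAt (fun h : ℂ => p.1 + h * v.1) (1 * v.1) 0 :=
      ((hasDerivAt_id (0 : ℂ)).mul_const v.1).const_add p.1
    simpa using this
  have h3 : HasDerivAt (fun h : ℂ => P.eval (p + h • v).1) (P.derivative.eval (p.1) * v.1) 0 := by
    have := (P.hasDerivAt ((p + (0 : ℂ) • v).1)).comp (0 : ℂ) h2
    simpa [Function.comp_def] using this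
  have h4 := (h1.pow 2).sub h3
  have h5 := h4.deriv
  simp only [zero_smul, add_zero] at h5
  rw [show (fun h : ℂ => (p + h • v).2 ^ 2 - P.eval (p + h • v).1)
      = ((fun h : ℂ => (p + h • v).2) ^ 2 - fun h : ℂ => P.eval (p + h • v).1) from rfl] 
  rw [h5]
  push_cast
  ring

theorem dird_fst (p v : ℂ × ℂ) : dird (fun p : ℂ × ℂ => p.1) p v = v.1 := by
  unfold dird
  have h2 : HasDerivAt (fun h : ℂ => (p + h • v).1) v.1 0 := by
    have : HasDerivAt (fun h : ℂ => p.1 + h * v.1) (1 * v.1) 0 :=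
      ((hasDerivAt_id (0 : ℂ)).mul_const v.1).const_add p.1
    simpa using this
  exact h2.deriv

theorem dird_cube (p v : ℂ × ℂ) :
    dird (fun p : ℂ × ℂ => p.2 ^ 3) p v = 3 * p.2 ^ 2 * v.2 := by
  unfold dird
  have h1 : HasDerivAt (fun h : ℂ => (p + h • v).2) v.2 0 := by
    have : HasDerivAt (fun h : ℂ => p.2 + h * v.2) (1 * v.2) 0 :=
      ((hasDerivAt_id (0 : ℂ)).mul_const v.2).const_add p.2
    simpa using this
  have h5 := (h1.pow 3).deriv
  simp only [zero_smul, add_zero] at h5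
  rw [show (fun h : ℂ => (p + h • v).2 ^ 3) = ((fun h : ℂ => (p + h • v).2) ^ 3) from rfl, h5]
  push_cast
  ring

theorem hyp_mem {P : ℂ[X]} {p : ℂ × ℂ} : p ∈ zeros (hypEq P) ↔ p.2 ^ 2 = P.eval p.1 := by
  simp [zeros, hypEq, sub_eq_zero]

theorem hyp_tangent {P : ℂ[X]} {p v : ℂ × ℂ} :
    v ∈ tangents (hypEq P) p ↔ 2 * p.2 * v.2 = P.derivative.eval p.1 * v.1 := by
  simp [tangents, hypEq, dird_hyp, sub_eq_zero]

theorem hyp_lines {P : ℂ[X]} (hP : P.Separable) : TangentLines (hypEq P) := by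
  intro p hp
  rw [hyp_mem] at hp
  have hne : p.2 = 0 → P.derivative.eval p.1 ≠ 0 := by
    intro h0 h1
    rw [h0] at hp
    obtain ⟨a, b, hab⟩ := hP
    have := congrArg (Polynomial.eval p.1) hab
    rw [eval_add, eval_mul, eval_mul, h1, ← hp] at this
    simp at this
  refine ⟨(2 * p.2, P.derivative.eval p.1), ?_, ?_⟩
  · intro h
    rw [Prod.mk_eq_zero] at h
    have h2 : p.2 = 0 := by simpa using h.1
    exact hne h2 h.2
  · ext v
    rw [hyp_tangent]
    constructor
    · intro h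
      by_cases h0 : p.2 = 0
      · have h1 := hne h0
        rw [h0] at h
        have hv : v.1 = 0 := by
          have : P.derivative.eval p.1 * v.1 = 0 := by rw [← h]; ring
          exact (mul_eq_zero.1 this).resolve_left h1
        refine ⟨v.2 / P.derivative.eval p.1, ?_⟩
        ext
        · simp [h0, hv]
        · simp [h1]
      · refine ⟨v.1 / (2 * p.2), ?_⟩
        ext
        · simp [h0]
        · simp only [Prod.smul_mk, smul_eq_mul]
          field_simp
          linear_combination h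
    · rintro ⟨c, rfl⟩
      simp only [Prod.smul_mk, smul_eq_mul]
      ring

theorem hyp_inj (P : ℂ[X]) :
    Set.InjOn (fun p : ℂ × ℂ => (p.1, p.2 ^ 3)) (zeros (hypEq P)) := by
  rintro ⟨z, t⟩ h1 ⟨z', t'⟩ h2 h
  rw [hyp_mem] at h1 h2
  simp only [Prod.mk.injEq] at h h1 h2 ⊢
  obtain ⟨rfl, h3⟩ := h
  refine ⟨rfl, ?_⟩
  by_cases h0 : t = 0
  · subst h0
    have : t' ^ 2 = 0 := by rw [h2, ← h1]; ring
    exact (pow_eq_zero_iff (two_ne_zero)).1 this |>.symm
  · have h4 : t ^ 2 * t = t ^ 2 * t' := by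
      have : t ^ 2 = t' ^ 2 := h1.trans h2.symm
      calc t ^ 2 * t = t ^ 3 := by ring
        _ = t' ^ 3 := h3
        _ = t' ^ 2 * t' := by ring
        _ = t ^ 2 * t' := by rw [this]
    exact mul_left_cancel₀ (pow_ne_zero 2 h0) h4

theorem hyp_crit {P : ℂ[X]} (hP : P.Separable) :
    critical (hypEq P) (fun p => p.1) (fun p => p.2 ^ 3)
      = (fun z : ℂ => (z, (0 : ℂ))) '' {z | P.eval z = 0} := by
  ext p
  constructor
  · rintro ⟨h1, h2⟩
    obtain ⟨w, hw0, hw⟩ := hyp_lines hP p h1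
    have hwm : w ∈ tangents (hypEq P) p := by rw [hw]; exact ⟨1, by simp⟩
    have h3 := h2 w hwm
    rw [dird_fst, dird_cube] at h3
    have h4 : p.2 = 0 := by
      by_contra h0
      have : w.2 = 0 := by
        have := h3.2
        simpa [h0] using this
      exact hw0 (Prod.ext h3.1 this)
    rw [hyp_mem, h4] at h1
    refine ⟨p.1, ?_, ?_⟩
    · simp only [Set.mem_ofPred_eq]
      rw [← h1]
      ring
    · exact Prod.ext rfl h4.symm
  · rintro ⟨z, hz, rfl⟩
    simp only [Set.mem_ofPred_eq] at hz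
    have hm : (z, (0 : ℂ)) ∈ zeros (hypEq P) := by
      rw [hyp_mem]
      simp [hz]
    refine ⟨hm, ?_⟩
    intro w hw
    rw [hyp_tangent] at hw
    rw [dird_fst, dird_cube]
    have hne : P.derivative.eval z ≠ 0 := by
      intro h1
      obtain ⟨a, b, hab⟩ := hP
      have := congrArg (Polynomial.eval z) hab
      rw [eval_add, eval_mul, eval_mul, h1, hz] at this
      simp at this
    simp only [mul_zero, zero_mul] at hw
    have : w.1 = 0 := (mul_eq_zero.1 hw.symm).resolve_left hne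
    simp [this]

theorem hyp_count {P : ℂ[X]} (hP : P.Separable) :
    (critical (hypEq P) (fun p => p.1) (fun p => p.2 ^ 3)).ncard = P.natDegree := by
  rw [hyp_crit hP, Set.ncard_image_of_injective _ (fun a b h => by simpa using h), ncard_zeros hP]

end Pool.Agent.H42.Cusp
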