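import Pool.Agent.H42.Cusp.Basic

open Polynomial

namespace Pool.Agent.H42.Cusp

theorem hdx (p v : ℂ × ℂ × ℂ) : HasDerivAt (fun h : ℂ => (p + h • v).1) v.1 0 := by
  have : HasDerivAt (fun h : ℂ => p.1 + h * v.1) (1 * v.1) 0 :=
    ((hasDerivAt_id (0 : ℂ)).mul_const v.1).const_add p.1
  simpa using this

theorem hdt (p v : ℂ × ℂ × ℂ) : HasDerivAt (fun h : ℂ => (p + h • v).2.1) v.2.1 0 := by
  have : HasDerivAt (fun h : ℂ => p.2.1 + h * v.2.1) (1 * v.2.1) 0 :=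
    ((hasDerivAt_id (0 : ℂ)).mul_const v.2.1).const_add p.2.1
  simpa using this

theorem hds (p v : ℂ × ℂ × ℂ) : HasDerivAt (fun h : ℂ => (p + h • v).2.2) v.2.2 0 := by
  have : HasDerivAt (fun h : ℂ => p.2.2 + h * v.2.2) (1 * v.2.2) 0 :=
    ((hasDerivAt_id (0 : ℂ)).mul_const v.2.2).const_add p.2.2
  simpa using this

theorem dird3_x (p v : ℂ × ℂ × ℂ) : dird (fun p : ℂ × ℂ × ℂ => p.1) p v = v.1 := (hdx p v).deriv

theorem dird3_t (p v : ℂ × ℂ × ℂ) :
    dird (fun p : ℂ × ℂ × ℂ => p.2.1 ^ 2) p v = 2 * p.2.1 * v.2.1 := by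
  unfold dird
  have h5 := ((hdt p v).pow 2).deriv
  simp only [zero_smul, add_zero] at h5
  rw [show (fun h : ℂ => (p + h • v).2.1 ^ 2) = ((fun h : ℂ => (p + h • v).2.1) ^ 2) from rfl, h5]
  push_cast
  ring

theorem dird3_1 (p v : ℂ × ℂ × ℂ) :
    dird (fun p : ℂ × ℂ × ℂ => p.2.2 ^ 2 - p.1 * (p.2.1 + 1 / 2)) p v
      = 2 * p.2.2 * v.2.2 - (v.1 * (p.2.1 + 1 / 2) + p.1 * v.2.1) := by
  unfold dird
  have h5 := (((hds p v).pow 2).sub ((hdx p v).mul ((hdt p v).add_const (1 / 2 : ℂ)))).deriv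
  simp only [zero_smul, add_zero] at h5
  refine Eq.trans (congrArg (fun f : ℂ → ℂ => deriv f 0) ?_) (h5.trans ?_)
  · rfl
  · push_cast
    ring

theorem dird3_2 (k : ℕ) (p v : ℂ × ℂ × ℂ) :
    dird (fun p : ℂ × ℂ × ℂ => p.2.2 * (p.2.1 - 1) - p.1 ^ (k + 2)) p v
      = v.2.2 * (p.2.1 - 1) + p.2.2 * v.2.1 - (k + 2) * p.1 ^ (k + 1) * v.1 := by
  unfold dird
  have h5 := (((hds p v).mul ((hdt p v).sub_const (1 : ℂ))).sub ((hdx p v).pow (k + 2))).deriv
  simp only [zero_smul, add_zero] at h5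
  refine Eq.trans (congrArg (fun f : ℂ → ℂ => deriv f 0) ?_) (h5.trans ?_)
  · rfl
  · push_cast
    ring

theorem dird3_3 (k : ℕ) (p v : ℂ × ℂ × ℂ) :
    dird (fun p : ℂ × ℂ × ℂ => (p.2.1 + 1 / 2) * (p.2.1 - 1) - p.1 ^ (k + 1) * p.2.2) p v
      = v.2.1 * (p.2.1 - 1) + (p.2.1 + 1 / 2) * v.2.1
        - ((k + 1) * p.1 ^ k * v.1 * p.2.2 + p.1 ^ (k + 1) * v.2.2) := by
  unfold dird
  have h5 := ((((hdt p v).add_const (1 / 2 : ℂ)).mul ((hdt p v).sub_const (1 : ℂ))).sub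
    (((hdx p v).pow (k + 1)).mul (hds p v))).deriv
  simp only [zero_smul, add_zero] at h5
  refine Eq.trans (congrArg (fun f : ℂ → ℂ => deriv f 0) ?_) (h5.trans ?_)
  · rfl
  · push_cast
    simp

theorem cov_mem {k : ℕ} {x t s : ℂ} : (x, t, s) ∈ zeros (covEq k) ↔
    s ^ 2 = x * (t + 1 / 2) ∧ s * (t - 1) = x ^ (k + 2) ∧
      (t + 1 / 2) * (t - 1) = x ^ (k + 1) * s := by
  simp [zeros, covEq, sub_eq_zero]

theorem cov_tangent {k : ℕ} {x t s a b c : ℂ} : (a, b, c) ∈ tangents (covEq k) (x, t, s) ↔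
    2 * s * c - (a * (t + 1 / 2) + x * b) = 0 ∧
    c * (t - 1) + s * b - (k + 2) * x ^ (k + 1) * a = 0 ∧
    b * (t - 1) + (t + 1 / 2) * b - ((k + 1) * x ^ k * a * s + x ^ (k + 1) * c) = 0 := by
  unfold tangents covEq
  simp only [Set.mem_ofPred_eq, List.mem_cons, List.not_mem_nil, or_false, forall_eq_or_imp,
    forall_eq, dird3_1, dird3_2, dird3_3]

theorem cov_key {k : ℕ} {x t s : ℂ} (h : (x, t, s) ∈ zeros (covEq k)) :
    x ^ (2 * k + 3) = (t - 1) ^ 2 * (t + 1 / 2) := by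
  obtain ⟨h1, h2, h3⟩ := cov_mem.1 h
  by_cases hx : x = 0
  · subst hx
    have hs : s = 0 := by
      rw [zero_mul] at h1
      exact (pow_eq_zero_iff two_ne_zero).1 h1
    rw [hs, mul_zero] at h3
    rw [zero_pow (by omega)]
    linear_combination -(t - 1) * h3
  · apply mul_left_cancel₀ hx
    calc x * x ^ (2 * k + 3) = (x ^ (k + 2)) ^ 2 := by ring
      _ = (s * (t - 1)) ^ 2 := by rw [h2]
      _ = s ^ 2 * (t - 1) ^ 2 := by ring
      _ = x * (t + 1 / 2) * (t - 1) ^ 2 := by rw [h1]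
      _ = _ := by ring

theorem cov_origin {k : ℕ} {t s : ℂ} (h : ((0 : ℂ), t, s) ∈ zeros (covEq k)) :
    s = 0 ∧ (t = 1 ∨ t = -1 / 2) := by
  obtain ⟨h1, h2, h3⟩ := cov_mem.1 h
  have hs : s = 0 := by
    rw [zero_mul] at h1
    exact (pow_eq_zero_iff two_ne_zero).1 h1
  refine ⟨hs, ?_⟩
  rw [hs, mul_zero] at h3
  rcases mul_eq_zero.1 h3 with h | h
  · right; linear_combination h
  · left; linear_combination h

theorem cov_s_ne {k : ℕ} {x t s : ℂ} (h : (x, t, s) ∈ zeros (covEq k)) (hx : x ≠ 0) : s ≠ 0 := by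
  obtain ⟨h1, h2, h3⟩ := cov_mem.1 h
  intro hs
  rw [hs, zero_mul] at h2
  exact pow_ne_zero _ hx h2.symm

/-- The tangent line at a point with `x ≠ 0`. -/
theorem cov_line_ne {k : ℕ} {x t s : ℂ} (h : (x, t, s) ∈ zeros (covEq k)) (hx : x ≠ 0) :
    tangents (covEq k) (x, t, s) = {v | ∃ c : ℂ, v = c • ((3 * t, (2 * k + 3) * x ^ k * s,
      (3 * t * (t + 1 / 2) + (2 * k + 3) * x ^ (k + 1) * s) / (2 * s)) : ℂ × ℂ × ℂ)} := by
  have hs := cov_s_ne h hx
  obtain ⟨h1, h2, h3⟩ := cov_mem.1 h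
  have hk : (2 * (k : ℂ) + 3) ≠ 0 := by
    have : ((2 * k + 3 : ℕ) : ℂ) ≠ 0 := Nat.cast_ne_zero.2 (by omega)
    push_cast at this
    exact this
  have hden : (2 * (k : ℂ) + 3) * x ^ k * s ≠ 0 := mul_ne_zero (mul_ne_zero hk (pow_ne_zero _ hx)) hs
  have h2s : 2 * s ≠ 0 := mul_ne_zero two_ne_zero hs
  set γ : ℂ := (3 * t * (t + 1 / 2) + (2 * k + 3) * x ^ (k + 1) * s) / (2 * s) with hγ
  have hγ2 : 2 * s * γ = 3 * t * (t + 1 / 2) + (2 * k + 3) * x ^ (k + 1) * s := by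
    rw [hγ]; field_simp
  ext ⟨a, b, c⟩
  rw [cov_tangent]
  constructor
  · rintro ⟨e1, e2, e3⟩
    have hrel : (2 * (k : ℂ) + 3) * x ^ k * s * a = 3 * t * b := by
      apply mul_left_cancel₀ hx
      linear_combination -(2 * s) * e2 + (t - 1) * e1 + 2 * b * h1 + a * h3
    refine ⟨b / ((2 * k + 3) * x ^ k * s), ?_⟩
    have hb : b / ((2 * k + 3) * x ^ k * s) * ((2 * k + 3) * x ^ k * s) = b :=
      div_mul_cancel₀ b hden
    have ha : b / ((2 * k + 3) * x ^ k * s) * (3 * t) = a := by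
      apply mul_left_cancel₀ hden
      calc (2 * (k : ℂ) + 3) * x ^ k * s * (b / ((2 * k + 3) * x ^ k * s) * (3 * t))
          = (b / ((2 * k + 3) * x ^ k * s) * ((2 * k + 3) * x ^ k * s)) * (3 * t) := by ring
        _ = b * (3 * t) := by rw [hb]
        _ = _ := by rw [hrel]; ring
    set d := b / ((2 * k + 3) * x ^ k * s) with hd
    have hc : d * γ = c := by
      apply mul_left_cancel₀ h2s
      calc 2 * s * (d * γ) = d * (2 * s * γ) := by ring
        _ = d * (3 * t * (t + 1 / 2) + (2 * k + 3) * x ^ (k + 1) * s) := by rw [hγ2]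
        _ = (d * (3 * t)) * (t + 1 / 2) + x * (d * ((2 * k + 3) * x ^ k * s)) := by ring
        _ = a * (t + 1 / 2) + x * b := by rw [ha, hb]
        _ = 2 * s * c := by linear_combination -e1
    simp only [Prod.smul_mk, smul_eq_mul]
    rw [ha, hb, hc]
  · rintro ⟨d, hd⟩
    simp only [Prod.smul_mk, smul_eq_mul, Prod.mk.injEq] at hd
    obtain ⟨rfl, rfl, rfl⟩ := hd
    refine ⟨?_, ?_, ?_⟩
    · linear_combination d * hγ2
    · apply mul_left_cancel₀ h2s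
      linear_combination d * (t - 1) * hγ2 + 2 * d * ((2 * k + 3) * x ^ k * s) * h1
        + 3 * d * t * h3
    · apply mul_left_cancel₀ h2s
      linear_combination -d * x ^ (k + 1) * hγ2 
        + d * x ^ k * ((2 * k + 3) * (4 * t - 1) - 6 * (k + 1) * t) * h1
        - d * (2 * k + 3) * x ^ (k + 1) * (-1) * h3

theorem cov_line_one {k : ℕ} :
    tangents (covEq k) ((0 : ℂ), (1 : ℂ), (0 : ℂ)) = {v | ∃ c : ℂ, v = c • ((0, 0, 1) : ℂ × ℂ × ℂ)} := by
  ext ⟨a, b, c⟩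
  rw [cov_tangent]
  constructor
  · rintro ⟨e1, e2, e3⟩
    have ha : a = 0 := by linear_combination (-2 / 3) * e1
    subst ha
    have hb : b = 0 := by
      simp only [sub_self, mul_zero, zero_mul, ne_eq, Nat.succ_ne_zero, not_false_eq_true,
        zero_pow, add_zero, zero_add, sub_zero] at e3
      linear_combination (2 / 3) * e3
    exact ⟨c, by simp [hb]⟩
  · rintro ⟨d, hd⟩
    simp only [Prod.smul_mk, smul_eq_mul, Prod.mk.injEq, mul_zero] at hd
    obtain ⟨rfl, rfl, rfl⟩ := hd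
    simp

theorem cov_line_half {k : ℕ} :
    tangents (covEq k) ((0 : ℂ), (-1 / 2 : ℂ), (0 : ℂ))
      = {v | ∃ c : ℂ, v = c • ((1, 0, 0) : ℂ × ℂ × ℂ)} := by
  ext ⟨a, b, c⟩
  rw [cov_tangent]
  constructor
  · rintro ⟨e1, e2, e3⟩
    have hc : c = 0 := by
      simp only [mul_zero, zero_mul, ne_eq, Nat.succ_ne_zero, not_false_eq_true,
        zero_pow, add_zero, sub_zero] at e2
      linear_combination (-2 / 3) * e2
    have hb : b = 0 := by
      simp only [mul_zero, ne_eq, Nat.succ_ne_zero, not_false_eq_true,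
        zero_pow, add_zero, zero_mul, sub_zero] at e3
      linear_combination (-2 / 3) * e3
    exact ⟨a, by simp [hb, hc]⟩
  · rintro ⟨d, hd⟩
    simp only [Prod.smul_mk, smul_eq_mul, Prod.mk.injEq, mul_zero] at hd
    obtain ⟨rfl, rfl, rfl⟩ := hd
    refine ⟨?_, ?_, ?_⟩ <;> simp
    norm_num

theorem cov_lines (k : ℕ) : TangentLines (covEq k) := by
  rintro ⟨x, t, s⟩ hp
  by_cases hx : x = 0
  · subst hx
    obtain ⟨rfl, rfl | rfl⟩ := cov_origin hp
    · exact ⟨_, by simp, cov_line_one⟩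
    · exact ⟨_, by simp, cov_line_half⟩
  · refine ⟨_, ?_, cov_line_ne hp hx⟩
    intro h
    have hs := cov_s_ne hp hx
    have hk : (2 * (k : ℂ) + 3) ≠ 0 := by
      have : ((2 * k + 3 : ℕ) : ℂ) ≠ 0 := Nat.cast_ne_zero.2 (by omega)
      push_cast at this
      exact this
    have h2 := congrArg (fun q : ℂ × ℂ × ℂ => q.2.1) h
    exact mul_ne_zero (mul_ne_zero hk (pow_ne_zero _ hx)) hs h2

theorem cov_inj (k : ℕ) :
    Set.InjOn (fun p : ℂ × ℂ × ℂ => (p.1, p.2.1 ^ 2)) (zeros (covEq k)) := by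
  rintro ⟨x, t, s⟩ h ⟨x', t', s'⟩ h' e
  simp only [Prod.mk.injEq] at e ⊢
  obtain ⟨rfl, e2⟩ := e
  have k1 := cov_key h
  have k2 := cov_key h'
  have e3 : t ^ 3 = t' ^ 3 := by
    have : (t - 1) ^ 2 * (t + 1 / 2) = (t' - 1) ^ 2 * (t' + 1 / 2) := k1.symm.trans k2
    linear_combination this + (3 / 2) * e2
  have ht : t = t' := by
    by_cases h0 : t = 0
    · subst h0
      have : t' ^ 2 = 0 := by rw [← e2]; ring
      exact ((pow_eq_zero_iff two_ne_zero).1 this).symm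
    · have : t ^ 2 * t = t ^ 2 * t' := by
        linear_combination e3 - t' * e2
      exact mul_left_cancel₀ (pow_ne_zero 2 h0) this
  subst ht
  refine ⟨rfl, rfl, ?_⟩
  by_cases hx : x = 0
  · subst hx
    rw [(cov_origin h).1, (cov_origin h').1]
  · have h1 : t - 1 ≠ 0 := by
      intro h1
      rw [h1] at k1
      have : x ^ (2 * k + 3) = 0 := by rw [k1]; ring
      exact pow_ne_zero _ hx this
    have a1 := (cov_mem.1 h).2.1
    have a2 := (cov_mem.1 h').2.1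
    exact mul_right_cancel₀ h1 (a1.trans a2.symm)

theorem cov_fibre {k : ℕ} {t : ℂ} (h1 : t ≠ 1) (h2 : t ≠ -1 / 2) :
    {p : ℂ × ℂ × ℂ | p ∈ zeros (covEq k) ∧ p.2.1 = t}.ncard = 2 * k + 3 := by
  have g1 : t - 1 ≠ 0 := sub_ne_zero.2 h1
  have g2 : t + 1 / 2 ≠ 0 := by
    intro h
    exact h2 (by linear_combination h)
  have : {p : ℂ × ℂ × ℂ | p ∈ zeros (covEq k) ∧ p.2.1 = t}
      = (fun x : ℂ => ((x, t, x ^ (k + 2) / (t - 1)) : ℂ × ℂ × ℂ)) ''
        {x | x ^ (2 * k + 3) = (t - 1) ^ 2 * (t + 1 / 2)} := by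
    ext ⟨x, t', s⟩
    simp only [Set.mem_ofPred_eq, Set.mem_image, Prod.mk.injEq]
    constructor
    · rintro ⟨h, rfl⟩
      refine ⟨x, cov_key h, rfl, rfl, ?_⟩
      rw [← (cov_mem.1 h).2.1]
      field_simp
    · rintro ⟨y, hy, rfl, rfl, rfl⟩
      refine ⟨cov_mem.2 ⟨?_, ?_, ?_⟩, rfl⟩
      · field_simp
        linear_combination y * 2 * hy
      · field_simp
      · field_simp
        linear_combination (-2) * hy
  rw [this, Set.ncard_image_of_injective _ (fun a b h => (Prod.mk.inj h).1)]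
  exact ncard_pow (by omega) (mul_ne_zero (pow_ne_zero _ g1) g2)

theorem cov_fibre_one {k : ℕ} {t : ℂ} (h : t = 1 ∨ t = -1 / 2) :
    {p : ℂ × ℂ × ℂ | p ∈ zeros (covEq k) ∧ p.2.1 = t} = {((0 : ℂ), t, (0 : ℂ))} := by
  ext ⟨x, t', s⟩
  simp only [Set.mem_ofPred_eq, Set.mem_singleton_iff, Prod.mk.injEq]
  constructor
  · rintro ⟨hm, rfl⟩
    have hk := cov_key hm
    have hx : x = 0 := by
      have : x ^ (2 * k + 3) = 0 := by
        rw [hk]
        rcases h with rfl | rfl <;> ring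
      exact (pow_eq_zero_iff (by omega)).1 this
    subst hx
    exact ⟨rfl, rfl, (cov_origin hm).1⟩
  · rintro ⟨rfl, rfl, rfl⟩
    refine ⟨cov_mem.2 ⟨by ring, by simp, ?_⟩, rfl⟩
    rcases h with rfl | rfl <;> ring

theorem cov_crit (k : ℕ) :
    critical (covEq k) (fun p => p.1) (fun p => p.2.1 ^ 2)
      = {p : ℂ × ℂ × ℂ | p ∈ zeros (covEq k) ∧ p.2.1 = 0} ∪ {((0 : ℂ), (1 : ℂ), (0 : ℂ))} := by
  ext ⟨x, t, s⟩
  constructor
  · rintro ⟨hm, hw⟩
    by_cases hx : x = 0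
    · subst hx
      obtain ⟨rfl, rfl | rfl⟩ := cov_origin hm
      · right; rfl
      · exfalso
        have h1 : ((1 : ℂ), (0 : ℂ), (0 : ℂ)) ∈ tangents (covEq k) ((0 : ℂ), (-1 / 2 : ℂ), (0 : ℂ)) := by
          rw [cov_line_half]
          exact ⟨1, by simp⟩
        have h2 := (hw _ h1).1
        rw [dird3_x] at h2
        simp at h2
    · left
      refine ⟨hm, ?_⟩
      have hs := cov_s_ne hm hx
      have h1 : ((3 * t, (2 * k + 3) * x ^ k * s,
          (3 * t * (t + 1 / 2) + (2 * k + 3) * x ^ (k + 1) * s) / (2 * s)) : ℂ × ℂ × ℂ)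
          ∈ tangents (covEq k) (x, t, s) := by
        rw [cov_line_ne hm hx]
        exact ⟨1, by simp⟩
      have h2 := (hw _ h1).1
      rw [dird3_x] at h2
      simpa using h2
  · rintro (⟨hm, ht⟩ | h)
    · refine ⟨hm, ?_⟩
      simp only at ht
      subst ht
      have hx : x ≠ 0 := by
        rintro rfl
        have := (cov_origin hm).2
        rcases this with h | h <;> norm_num at h
      intro w hw
      rw [cov_line_ne hm hx] at hw
      obtain ⟨c, rfl⟩ := hw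
      rw [dird3_x, dird3_t]
      simp
    · have h' : (x, t, s) = ((0 : ℂ), (1 : ℂ), (0 : ℂ)) := h
      rw [h']
      refine ⟨cov_mem.2 ⟨by ring, by simp, by simp⟩, ?_⟩
      intro w hw
      rw [cov_line_one] at hw
      obtain ⟨c, rfl⟩ := hw
      rw [dird3_x, dird3_t]
      simp

theorem cov_count (k : ℕ) :
    (critical (covEq k) (fun p => p.1) (fun p => p.2.1 ^ 2)).ncard = 2 * k + 4 := by
  have h0 : {p : ℂ × ℂ × ℂ | p ∈ zeros (covEq k) ∧ p.2.1 = 0}.ncard = 2 * k + 3 :=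
    cov_fibre (by norm_num) (by norm_num)
  have hf : {p : ℂ × ℂ × ℂ | p ∈ zeros (covEq k) ∧ p.2.1 = 0}.Finite :=
    Set.finite_of_ncard_ne_zero (by rw [h0]; omega)
  rw [cov_crit, Set.ncard_union_eq ?_ hf (Set.finite_singleton _), h0, Set.ncard_singleton]
  rw [Set.disjoint_singleton_right]
  rintro ⟨_, h⟩
  simp at h

end Pool.Agent.H42.Cusp
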