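import Pool.Agent.H42.Cusp.Cover

open Polynomial

namespace Pool.Agent.H42.Cusp

/-- The three equations of the curve `D_k`, in the coordinates `(x, z, s)`: the `2 x 2` minors of
the matrix with rows `(s, z ^ 2 + 1, x ^ (k + 1) z)` and `(x, s, z + 1)`. There is no solution with
`z = 0`. -/
noncomputable def delEq (k : ℕ) : List (ℂ × ℂ × ℂ → ℂ) :=
  [fun p => p.2.2 ^ 2 - p.1 * (p.2.1 ^ 2 + 1),
   fun p => p.2.2 * (p.2.1 + 1) - p.1 ^ (k + 2) * p.2.1,
   fun p => (p.2.1 ^ 2 + 1) * (p.2.1 + 1) - p.1 ^ (k + 1) * p.2.1 * p.2.2]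

theorem dirdD_u (p v : ℂ × ℂ × ℂ) (hp : p.2.1 ≠ 0) :
    dird (fun p : ℂ × ℂ × ℂ => p.2.1 ^ 2 + 2 / p.2.1) p v
      = 2 * (p.2.1 ^ 3 - 1) / p.2.1 ^ 2 * v.2.1 := by
  unfold dird
  have h0 : (p + (0 : ℂ) • v).2.1 ≠ 0 := by simpa using hp
  have h5 := (((hdt p v).pow 2).add (((hasDerivAt_const (0 : ℂ) (2 : ℂ))).div (hdt p v) h0)).deriv
  simp only [zero_smul, add_zero] at h5
  refine Eq.trans (congrArg (fun f : ℂ → ℂ => deriv f 0) ?_) (h5.trans ?_)
  · rfl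
  · push_cast
    field_simp
    ring

theorem dirdD_1 (p v : ℂ × ℂ × ℂ) :
    dird (fun p : ℂ × ℂ × ℂ => p.2.2 ^ 2 - p.1 * (p.2.1 ^ 2 + 1)) p v
      = 2 * p.2.2 * v.2.2 - (v.1 * (p.2.1 ^ 2 + 1) + p.1 * (2 * p.2.1 * v.2.1)) := by
  unfold dird
  have h5 := (((hds p v).pow 2).sub ((hdx p v).mul (((hdt p v).pow 2).add_const (1 : ℂ)))).deriv
  simp only [zero_smul, add_zero] at h5
  refine Eq.trans (congrArg (fun f : ℂ → ℂ => deriv f 0) ?_) (h5.trans ?_)
  · rfl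
  · simp only [Pi.pow_apply, zero_smul, add_zero]
    push_cast
    ring

theorem dirdD_2 (k : ℕ) (p v : ℂ × ℂ × ℂ) :
    dird (fun p : ℂ × ℂ × ℂ => p.2.2 * (p.2.1 + 1) - p.1 ^ (k + 2) * p.2.1) p v
      = v.2.2 * (p.2.1 + 1) + p.2.2 * v.2.1
        - ((k + 2) * p.1 ^ (k + 1) * v.1 * p.2.1 + p.1 ^ (k + 2) * v.2.1) := by
  unfold dird
  have h5 := (((hds p v).mul ((hdt p v).add_const (1 : ℂ))).sub
    (((hdx p v).pow (k + 2)).mul (hdt p v))).deriv
  simp only [zero_smul, add_zero] at h5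
  refine Eq.trans (congrArg (fun f : ℂ → ℂ => deriv f 0) ?_) (h5.trans ?_)
  · rfl
  · simp only [Pi.pow_apply, zero_smul, add_zero]
    push_cast
    ring

theorem dirdD_3 (k : ℕ) (p v : ℂ × ℂ × ℂ) :
    dird (fun p : ℂ × ℂ × ℂ => (p.2.1 ^ 2 + 1) * (p.2.1 + 1) - p.1 ^ (k + 1) * p.2.1 * p.2.2) p v
      = 2 * p.2.1 * v.2.1 * (p.2.1 + 1) + (p.2.1 ^ 2 + 1) * v.2.1
        - (((k + 1) * p.1 ^ k * v.1 * p.2.1 + p.1 ^ (k + 1) * v.2.1) * p.2.2
            + p.1 ^ (k + 1) * p.2.1 * v.2.2) := by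
  unfold dird
  have h5 := (((((hdt p v).pow 2).add_const (1 : ℂ)).mul ((hdt p v).add_const (1 : ℂ))).sub
    ((((hdx p v).pow (k + 1)).mul (hdt p v)).mul (hds p v))).deriv
  simp only [zero_smul, add_zero] at h5
  refine Eq.trans (congrArg (fun f : ℂ → ℂ => deriv f 0) ?_) (h5.trans ?_)
  · rfl
  · simp only [Pi.pow_apply, Pi.mul_apply, zero_smul, add_zero]
    push_cast
    ring

theorem del_mem {k : ℕ} {x z s : ℂ} : (x, z, s) ∈ zeros (delEq k) ↔
    s ^ 2 = x * (z ^ 2 + 1) ∧ s * (z + 1) = x ^ (k + 2) * z ∧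
      (z ^ 2 + 1) * (z + 1) = x ^ (k + 1) * z * s := by
  simp [zeros, delEq, sub_eq_zero]

theorem del_tangent {k : ℕ} {x z s a b c : ℂ} : (a, b, c) ∈ tangents (delEq k) (x, z, s) ↔
    2 * s * c - (a * (z ^ 2 + 1) + x * (2 * z * b)) = 0 ∧
    c * (z + 1) + s * b - ((k + 2) * x ^ (k + 1) * a * z + x ^ (k + 2) * b) = 0 ∧
    2 * z * b * (z + 1) + (z ^ 2 + 1) * b
      - (((k + 1) * x ^ k * a * z + x ^ (k + 1) * b) * s + x ^ (k + 1) * z * c) = 0 := by
  unfold tangents delEq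
  simp only [Set.mem_ofPred_eq, List.mem_cons, List.not_mem_nil, or_false, forall_eq_or_imp,
    forall_eq, dirdD_1, dirdD_2, dirdD_3]

theorem del_z_ne {k : ℕ} {x z s : ℂ} (h : (x, z, s) ∈ zeros (delEq k)) : z ≠ 0 := by
  obtain ⟨h1, h2, h3⟩ := del_mem.1 h
  rintro rfl
  norm_num at h3

theorem del_key {k : ℕ} {x z s : ℂ} (h : (x, z, s) ∈ zeros (delEq k)) :
    x ^ (2 * k + 3) * z ^ 2 = (z + 1) ^ 2 * (z ^ 2 + 1) := by
  obtain ⟨h1, h2, h3⟩ := del_mem.1 h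
  by_cases hx : x = 0
  · subst hx
    have hs : s = 0 := by
      rw [zero_mul] at h1
      exact (pow_eq_zero_iff two_ne_zero).1 h1
    rw [hs, mul_zero] at h3
    rw [zero_pow (by omega)]
    linear_combination -(z + 1) * h3
  · apply mul_left_cancel₀ hx
    calc x * (x ^ (2 * k + 3) * z ^ 2) = (x ^ (k + 2) * z) ^ 2 := by ring
      _ = (s * (z + 1)) ^ 2 := by rw [h2]
      _ = s ^ 2 * (z + 1) ^ 2 := by ring
      _ = x * (z ^ 2 + 1) * (z + 1) ^ 2 := by rw [h1]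
      _ = _ := by ring

theorem del_origin {k : ℕ} {z s : ℂ} (h : ((0 : ℂ), z, s) ∈ zeros (delEq k)) :
    s = 0 ∧ (z = -1 ∨ z ^ 2 + 1 = 0) := by
  obtain ⟨h1, h2, h3⟩ := del_mem.1 h
  have hs : s = 0 := by
    rw [zero_mul] at h1
    exact (pow_eq_zero_iff two_ne_zero).1 h1
  refine ⟨hs, ?_⟩
  rw [hs, mul_zero] at h3
  rcases mul_eq_zero.1 h3 with h | h
  · right; exact h
  · left; linear_combination h

theorem del_s_ne {k : ℕ} {x z s : ℂ} (h : (x, z, s) ∈ zeros (delEq k)) (hx : x ≠ 0) : s ≠ 0 := by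
  have hz := del_z_ne h
  obtain ⟨h1, h2, h3⟩ := del_mem.1 h
  intro hs
  rw [hs, zero_mul] at h2
  exact mul_ne_zero (pow_ne_zero _ hx) hz h2.symm

theorem hk3 (k : ℕ) : (2 * (k : ℂ) + 3) ≠ 0 := by
  have : ((2 * k + 3 : ℕ) : ℂ) ≠ 0 := Nat.cast_ne_zero.2 (by omega)
  push_cast at this
  exact this

/-- The tangent line at a point with `x ≠ 0`. -/
theorem del_line_ne {k : ℕ} {x z s : ℂ} (h : (x, z, s) ∈ zeros (delEq k)) (hx : x ≠ 0) :
    tangents (delEq k) (x, z, s) = {v | ∃ c : ℂ, v = c • ((2 * (z ^ 3 - 1),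
      (2 * k + 3) * x ^ k * s * z ^ 2,
      ((z ^ 2 + 1) * (z ^ 3 - 1) + (2 * k + 3) * x ^ (k + 1) * s * z ^ 3) / s) : ℂ × ℂ × ℂ)} := by
  have hs := del_s_ne h hx
  have hz := del_z_ne h
  obtain ⟨h1, h2, h3⟩ := del_mem.1 h
  have hk := hk3 k
  have hden : (2 * (k : ℂ) + 3) * x ^ k * s * z ^ 2 ≠ 0 :=
    mul_ne_zero (mul_ne_zero (mul_ne_zero hk (pow_ne_zero _ hx)) hs) (pow_ne_zero _ hz)
  have h2s : 2 * s ≠ 0 := mul_ne_zero two_ne_zero hs
  set γ : ℂ := ((z ^ 2 + 1) * (z ^ 3 - 1) + (2 * k + 3) * x ^ (k + 1) * s * z ^ 3) / s with hγ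
  have hγ2 : s * γ = (z ^ 2 + 1) * (z ^ 3 - 1) + (2 * k + 3) * x ^ (k + 1) * s * z ^ 3 := by
    rw [hγ]; field_simp
  ext ⟨a, b, c⟩
  rw [del_tangent]
  constructor
  · rintro ⟨e1, e2, e3⟩
    have hrel : (2 * (k : ℂ) + 3) * x ^ k * s * z ^ 2 * a = 2 * (z ^ 3 - 1) * b := by
      apply mul_left_cancel₀ hx
      linear_combination -(2 * s * z) * e2 + z * (z + 1) * e1 + 2 * b * z * h1 + a * z * h3
        + 2 * x * b * h3
    refine ⟨b / ((2 * k + 3) * x ^ k * s * z ^ 2), ?_⟩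
    have hb : b / ((2 * k + 3) * x ^ k * s * z ^ 2) * ((2 * k + 3) * x ^ k * s * z ^ 2) = b :=
      div_mul_cancel₀ b hden
    have ha : b / ((2 * k + 3) * x ^ k * s * z ^ 2) * (2 * (z ^ 3 - 1)) = a := by
      apply mul_left_cancel₀ hden
      calc (2 * (k : ℂ) + 3) * x ^ k * s * z ^ 2
            * (b / ((2 * k + 3) * x ^ k * s * z ^ 2) * (2 * (z ^ 3 - 1)))
          = (b / ((2 * k + 3) * x ^ k * s * z ^ 2) * ((2 * k + 3) * x ^ k * s * z ^ 2))
            * (2 * (z ^ 3 - 1)) := by ring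
        _ = b * (2 * (z ^ 3 - 1)) := by rw [hb]
        _ = _ := by rw [hrel]; ring
    set d := b / ((2 * k + 3) * x ^ k * s * z ^ 2) with hd
    have hc : d * γ = c := by
      apply mul_left_cancel₀ h2s
      calc 2 * s * (d * γ) = 2 * d * (s * γ) := by ring
        _ = 2 * d * ((z ^ 2 + 1) * (z ^ 3 - 1) + (2 * k + 3) * x ^ (k + 1) * s * z ^ 3) := by
            rw [hγ2]
        _ = (d * (2 * (z ^ 3 - 1))) * (z ^ 2 + 1)
            + x * (2 * z * (d * ((2 * k + 3) * x ^ k * s * z ^ 2))) := by ring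
        _ = a * (z ^ 2 + 1) + x * (2 * z * b) := by rw [ha, hb]
        _ = 2 * s * c := by linear_combination -e1
    simp only [Prod.smul_mk, smul_eq_mul]
    rw [ha, hb, hc]
  · rintro ⟨d, hd⟩
    simp only [Prod.smul_mk, smul_eq_mul, Prod.mk.injEq] at hd
    obtain ⟨rfl, rfl, rfl⟩ := hd
    refine ⟨?_, ?_, ?_⟩
    · linear_combination 2 * d * hγ2
    · apply mul_left_cancel₀ hs
      linear_combination d * (z + 1) * hγ2 + d * ((2 * k + 3) * x ^ k * s * z ^ 2) * h1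
        + d * (z ^ 3 - 1) * h3 + d * (2 * k + 3) * x ^ (k + 1) * s * z * h3
    · apply mul_left_cancel₀ hs
      linear_combination -d * x ^ (k + 1) * z * hγ2
        + d * ((2 * k + 3) * x ^ k * z ^ 2 * (3 * z ^ 2 + 2 * z + 1)
          - (2 * k + 2) * x ^ k * z * (z ^ 3 - 1) - (2 * k + 3) * x ^ (2 * k + 1) * s * z ^ 2) * h1
        + d * (2 * k + 3) * x ^ (k + 1) * z * (z ^ 2 + 1) * h3
        + d * (2 * k + 3) * x ^ (k + 1) * z ^ 3 * h3

theorem del_line_neg {k : ℕ} :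
    tangents (delEq k) ((0 : ℂ), (-1 : ℂ), (0 : ℂ))
      = {v | ∃ c : ℂ, v = c • ((0, 0, 1) : ℂ × ℂ × ℂ)} := by
  ext ⟨a, b, c⟩
  rw [del_tangent]
  constructor
  · rintro ⟨e1, e2, e3⟩
    have ha : a = 0 := by linear_combination (-1 / 2) * e1
    subst ha
    have hb : b = 0 := by
      simp only [mul_zero, zero_mul, ne_eq, Nat.succ_ne_zero, not_false_eq_true,
        zero_pow, add_zero, sub_zero] at e3
      linear_combination (1 / 2) * e3
    exact ⟨c, by simp [hb]⟩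
  · rintro ⟨d, hd⟩
    simp only [Prod.smul_mk, smul_eq_mul, Prod.mk.injEq, mul_zero] at hd
    obtain ⟨rfl, rfl, rfl⟩ := hd
    simp

theorem del_line_i {k : ℕ} {z : ℂ} (hz : z ^ 2 + 1 = 0) :
    tangents (delEq k) ((0 : ℂ), z, (0 : ℂ)) = {v | ∃ c : ℂ, v = c • ((1, 0, 0) : ℂ × ℂ × ℂ)} := by
  have h0 : z ≠ 0 := by rintro rfl; norm_num at hz
  have h1 : z + 1 ≠ 0 := by
    intro h
    have : z = -1 := by linear_combination h
    subst this
    norm_num at hz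
  ext ⟨a, b, c⟩
  rw [del_tangent]
  constructor
  · rintro ⟨e1, e2, e3⟩
    have hc : c = 0 := by
      simp only [mul_zero, zero_mul, ne_eq, Nat.succ_ne_zero, not_false_eq_true,
        zero_pow, add_zero, sub_zero] at e2
      exact (mul_eq_zero.1 e2).resolve_right h1
    have hb : b = 0 := by
      rw [hz] at e3
      simp only [mul_zero, ne_eq, Nat.succ_ne_zero, not_false_eq_true,
        zero_pow, add_zero, zero_mul, sub_zero] at e3
      have h2 : (2 * z * b) = 0 := (mul_eq_zero.1 e3).resolve_right h1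
      exact (mul_eq_zero.1 h2).resolve_left (mul_ne_zero two_ne_zero h0)
    exact ⟨a, by simp [hb, hc]⟩
  · rintro ⟨d, hd⟩
    simp only [Prod.smul_mk, smul_eq_mul, Prod.mk.injEq, mul_zero] at hd
    obtain ⟨rfl, rfl, rfl⟩ := hd
    refine ⟨?_, ?_, ?_⟩ <;> simp [hz]

theorem del_lines (k : ℕ) : TangentLines (delEq k) := by
  rintro ⟨x, z, s⟩ hp
  by_cases hx : x = 0
  · subst hx
    obtain ⟨rfl, rfl | hz⟩ := del_origin hp
    · exact ⟨_, by simp, del_line_neg⟩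
    · exact ⟨_, by simp, del_line_i hz⟩
  · refine ⟨_, ?_, del_line_ne hp hx⟩
    intro h
    have hs := del_s_ne hp hx
    have hz := del_z_ne hp
    have h2 := congrArg (fun q : ℂ × ℂ × ℂ => q.2.1) h
    exact mul_ne_zero (mul_ne_zero (mul_ne_zero (hk3 k) (pow_ne_zero _ hx)) hs)
      (pow_ne_zero 2 hz) h2

/-- The deltoid is injective. -/
theorem deltoid_inj {z w : ℂ} (hz : z ≠ 0) (hw : w ≠ 0)
    (e1 : z ^ 2 + 2 / z = w ^ 2 + 2 / w) (e2 : 1 / z ^ 2 + 2 * z = 1 / w ^ 2 + 2 * w) : z = w := by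
  by_contra hne
  have hsub : z - w ≠ 0 := sub_ne_zero.2 hne
  have a1 : z * w * (z + w) = 2 := by
    apply mul_left_cancel₀ hsub
    have h := e1
    field_simp at h
    linear_combination h
  have a2 : z + w = 2 * (z * w) ^ 2 := by
    apply mul_left_cancel₀ hsub
    have h := e2
    field_simp at h
    linear_combination -h
  have a3 : (z * w) ^ 3 = 1 := by
    rw [a2] at a1
    linear_combination (1 / 2) * a1
  have a4 : (z - w) ^ 2 = 0 := by
    have : (z - w) ^ 2 = (z + w) ^ 2 - 4 * (z * w) := by ring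
    rw [this, a2]
    linear_combination 4 * (z * w) * a3
  exact hsub ((pow_eq_zero_iff two_ne_zero).1 a4)

theorem del_inj (k : ℕ) :
    Set.InjOn (fun p : ℂ × ℂ × ℂ => (p.1, p.2.1 ^ 2 + 2 / p.2.1)) (zeros (delEq k)) := by
  rintro ⟨x, z, s⟩ h ⟨x', w, s'⟩ h' e
  simp only [Prod.mk.injEq] at e ⊢
  obtain ⟨rfl, e2⟩ := e
  have k1 := del_key h
  have k2 := del_key h'
  have hz := del_z_ne h
  have hw := del_z_ne h'
  have l1 : x ^ (2 * k + 3) = (z ^ 2 + 2 / z) + (1 / z ^ 2 + 2 * z) + 2 := by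
    field_simp
    linear_combination k1
  have l2 : x ^ (2 * k + 3) = (w ^ 2 + 2 / w) + (1 / w ^ 2 + 2 * w) + 2 := by
    field_simp
    linear_combination k2
  have ht : z = w := deltoid_inj hz hw e2 (by linear_combination l2 - l1 - e2)
  subst ht
  refine ⟨rfl, rfl, ?_⟩
  by_cases hx : x = 0
  · subst hx
    rw [(del_origin h).1, (del_origin h').1]
  · have h1 : z + 1 ≠ 0 := by
      intro h1
      rw [h1] at k1
      have : x ^ (2 * k + 3) * z ^ 2 = 0 := by rw [k1]; ring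
      exact mul_ne_zero (pow_ne_zero _ hx) (pow_ne_zero 2 hz) this
    have a1 := (del_mem.1 h).2.1
    have a2 := (del_mem.1 h').2.1
    exact mul_right_cancel₀ h1 (a1.trans a2.symm)

theorem del_fibre {k : ℕ} {z : ℂ} (h0 : z ≠ 0) (h1 : z ≠ -1) (h2 : z ^ 2 + 1 ≠ 0) :
    {p : ℂ × ℂ × ℂ | p ∈ zeros (delEq k) ∧ p.2.1 = z}.ncard = 2 * k + 3 := by
  have g1 : z + 1 ≠ 0 := by
    intro h
    exact h1 (by linear_combination h)
  have : {p : ℂ × ℂ × ℂ | p ∈ zeros (delEq k) ∧ p.2.1 = z}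
      = (fun x : ℂ => ((x, z, x ^ (k + 2) * z / (z + 1)) : ℂ × ℂ × ℂ)) ''
        {x | x ^ (2 * k + 3) = (z + 1) ^ 2 * (z ^ 2 + 1) / z ^ 2} := by
    ext ⟨x, t', s⟩
    simp only [Set.mem_ofPred_eq, Set.mem_image, Prod.mk.injEq]
    constructor
    · rintro ⟨h, rfl⟩
      refine ⟨x, ?_, rfl, rfl, ?_⟩
      · rw [← del_key h]
        field_simp
      · rw [← (del_mem.1 h).2.1]
        field_simp
    · rintro ⟨y, hy, rfl, rfl, rfl⟩
      have hy' : y ^ (2 * k + 3) * z ^ 2 = (z + 1) ^ 2 * (z ^ 2 + 1) := by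
        rw [hy]; field_simp
      refine ⟨del_mem.2 ⟨?_, ?_, ?_⟩, rfl⟩
      · field_simp
        linear_combination y * hy'
      · field_simp
      · field_simp
        linear_combination -hy'
  rw [this, Set.ncard_image_of_injective _ (fun a b h => (Prod.mk.inj h).1)]
  exact ncard_pow (by omega) (div_ne_zero (mul_ne_zero (pow_ne_zero _ g1) h2) (pow_ne_zero _ h0))

theorem del_fibre_one {k : ℕ} {z : ℂ} (h : z = -1 ∨ z ^ 2 + 1 = 0) :
    {p : ℂ × ℂ × ℂ | p ∈ zeros (delEq k) ∧ p.2.1 = z} = {((0 : ℂ), z, (0 : ℂ))} := by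
  have hr : (z + 1) ^ 2 * (z ^ 2 + 1) = 0 := by
    rcases h with rfl | h
    · ring
    · rw [h]; ring
  have hr2 : (z ^ 2 + 1) * (z + 1) = 0 := by
    rcases h with rfl | h
    · ring
    · rw [h]; ring
  ext ⟨x, t', s⟩
  simp only [Set.mem_ofPred_eq, Set.mem_singleton_iff, Prod.mk.injEq]
  constructor
  · rintro ⟨hm, rfl⟩
    have hk := del_key hm
    have hz := del_z_ne hm
    have hx : x = 0 := by
      have : x ^ (2 * k + 3) * t' ^ 2 = 0 := by rw [hk, hr]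
      have h2 : x ^ (2 * k + 3) = 0 := (mul_eq_zero.1 this).resolve_right (pow_ne_zero 2 hz)
      exact (pow_eq_zero_iff (by omega)).1 h2
    subst hx
    exact ⟨rfl, rfl, (del_origin hm).1⟩
  · rintro ⟨rfl, rfl, rfl⟩
    exact ⟨del_mem.2 ⟨by ring, by simp, by rw [hr2]; ring⟩, rfl⟩

theorem del_crit (k : ℕ) :
    critical (delEq k) (fun p => p.1) (fun p => p.2.1 ^ 2 + 2 / p.2.1)
      = {p : ℂ × ℂ × ℂ | p ∈ zeros (delEq k) ∧ p.2.1 ^ 3 = 1} ∪ {((0 : ℂ), (-1 : ℂ), (0 : ℂ))} := by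
  ext ⟨x, z, s⟩
  constructor
  · rintro ⟨hm, hw⟩
    by_cases hx : x = 0
    · subst hx
      obtain ⟨rfl, rfl | hz⟩ := del_origin hm
      · right; rfl
      · exfalso
        have h1 : ((1 : ℂ), (0 : ℂ), (0 : ℂ)) ∈ tangents (delEq k) ((0 : ℂ), z, (0 : ℂ)) := by
          rw [del_line_i hz]
          exact ⟨1, by simp⟩
        have h2 := (hw _ h1).1
        rw [dird3_x] at h2
        simp at h2
    · left
      refine ⟨hm, ?_⟩
      have h1 : ((2 * (z ^ 3 - 1), (2 * k + 3) * x ^ k * s * z ^ 2,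
          ((z ^ 2 + 1) * (z ^ 3 - 1) + (2 * k + 3) * x ^ (k + 1) * s * z ^ 3) / s) : ℂ × ℂ × ℂ)
          ∈ tangents (delEq k) (x, z, s) := by
        rw [del_line_ne hm hx]
        exact ⟨1, by simp⟩
      have h2 := (hw _ h1).1
      rw [dird3_x] at h2
      simp only at h2 ⊢
      linear_combination (1 / 2) * h2
  · rintro (⟨hm, ht⟩ | h)
    · refine ⟨hm, ?_⟩
      simp only at ht
      have hz := del_z_ne hm
      have hx : x ≠ 0 := by
        rintro rfl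
        rcases (del_origin hm).2 with h | h
        · rw [h] at ht
          norm_num at ht
        · have h3 : z = -1 := by linear_combination z * h - ht
          rw [h3] at h
          norm_num at h
      intro w hw
      rw [del_line_ne hm hx] at hw
      obtain ⟨c, rfl⟩ := hw
      rw [dird3_x, dirdD_u _ _ hz]
      simp [ht]
    · have h' : (x, z, s) = ((0 : ℂ), (-1 : ℂ), (0 : ℂ)) := h
      rw [h']
      refine ⟨del_mem.2 ⟨by ring, by simp, by simp⟩, ?_⟩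
      intro w hw
      rw [del_line_neg] at hw
      obtain ⟨c, rfl⟩ := hw
      rw [dird3_x, dirdD_u _ _ (by simp)]
      simp

theorem del_count (k : ℕ) :
    (critical (delEq k) (fun p => p.1) (fun p => p.2.1 ^ 2 + 2 / p.2.1)).ncard = 6 * k + 10 := by
  obtain ⟨ω, hω⟩ : ∃ ω : ℂ, ω ^ 2 + ω + 1 = 0 := by
    obtain ⟨ω, h⟩ := IsAlgClosed.exists_root (X ^ 2 + X + 1 : ℂ[X]) (by
      have : (X ^ 2 + X + 1 : ℂ[X]).degree = 2 := by compute_degree!
      rw [this]; norm_num)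
    exact ⟨ω, by simpa using h⟩
  set F : ℂ → Set (ℂ × ℂ × ℂ) := fun z => {p : ℂ × ℂ × ℂ | p ∈ zeros (delEq k) ∧ p.2.1 = z} with hF
  have hcard : ∀ z : ℂ, z ^ 3 = 1 → (F z).ncard = 2 * k + 3 := by
    intro z hz
    apply del_fibre
    · rintro rfl; norm_num at hz
    · rintro rfl; norm_num at hz
    · intro h
      have h3 : z = -1 := by linear_combination z * h - hz
      rw [h3] at h
      norm_num at h
  have hfin : ∀ z : ℂ, z ^ 3 = 1 → (F z).Finite := fun z hz =>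
    Set.finite_of_ncard_ne_zero (by rw [hcard z hz]; omega)
  have hdisj : ∀ z w : ℂ, z ≠ w → Disjoint (F z) (F w) := by
    intro z w hzw
    rw [Set.disjoint_left]
    rintro p ⟨_, h1⟩ ⟨_, h2⟩
    exact hzw (h1.symm.trans h2)
  have c1 : (1 : ℂ) ^ 3 = 1 := by norm_num
  have c2 : ω ^ 3 = 1 := by linear_combination (ω - 1) * hω
  have c3 : (-1 - ω) ^ 3 = 1 := by linear_combination -(ω + 2) * hω
  have n1 : (1 : ℂ) ≠ ω := by
    rintro rfl; norm_num at hω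
  have n2 : (1 : ℂ) ≠ -1 - ω := by
    intro h
    have : ω = -2 := by linear_combination h
    rw [this] at hω; norm_num at hω
  have n3 : ω ≠ -1 - ω := by
    intro h
    have : ω = -1 / 2 := by linear_combination (1 / 2) * h
    rw [this] at hω; norm_num at hω
  have hset : {p : ℂ × ℂ × ℂ | p ∈ zeros (delEq k) ∧ p.2.1 ^ 3 = 1}
      = (F 1 ∪ F ω) ∪ F (-1 - ω) := by
    ext p
    constructor
    · rintro ⟨hm, h⟩
      have : (p.2.1 - 1) * ((p.2.1 - ω) * (p.2.1 - (-1 - ω))) = 0 := by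
        linear_combination h - (p.2.1 - 1) * hω
      rcases mul_eq_zero.1 this with h | h
      · left; left; exact ⟨hm, by linear_combination h⟩
      · rcases mul_eq_zero.1 h with h | h
        · left; right; exact ⟨hm, by linear_combination h⟩
        · right; exact ⟨hm, by linear_combination h⟩
    · rintro ((⟨hm, h⟩ | ⟨hm, h⟩) | ⟨hm, h⟩)
      · exact ⟨hm, by rw [h]; exact c1⟩
      · exact ⟨hm, by rw [h]; exact c2⟩
      · exact ⟨hm, by rw [h]; exact c3⟩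
  have hn : {p : ℂ × ℂ × ℂ | p ∈ zeros (delEq k) ∧ p.2.1 ^ 3 = 1}.ncard = 3 * (2 * k + 3) := by
    rw [hset, Set.ncard_union_eq ?_ ((hfin _ c1).union (hfin _ c2)) (hfin _ c3),
      Set.ncard_union_eq (hdisj _ _ n1) (hfin _ c1) (hfin _ c2), hcard _ c1, hcard _ c2, hcard _ c3]
    · ring
    · exact Set.disjoint_union_left.2 ⟨hdisj _ _ n2, hdisj _ _ n3⟩
  rw [del_crit, Set.ncard_union_eq ?_ (Set.finite_of_ncard_ne_zero (by rw [hn]; omega))
    (Set.finite_singleton _), hn, Set.ncard_singleton]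
  · ring
  · rw [Set.disjoint_singleton_right]
    rintro ⟨_, h⟩
    norm_num at h

end Pool.Agent.H42.Cusp
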